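import Pool.Agent.H940V.ElSanity

/-!
MP_ab447a_ag, Q2: nonvanishing of the Koszul cohomology of Veronese embeddings in the whole range
`λ_q ≤ p ≤ μ_q`, for every `d ≥ b + q + 1`, over an arbitrary field, with an explicit lower bound
for the dimension.
-/

namespace Pool.Agent.Results.MP_ab447a_ag.VeroneseNonvanishing

open Pool.Agent.H940V

/-- For every field `k`, all `1 ≤ q ≤ n`, `b ≥ 0`, `d ≥ b + q + 1` and `λ_q ≤ p ≤ μ_q`:
`K_{p,q}(ℙⁿ,b;d) ≠ 0`, and `dim_k K_{p,q}(ℙⁿ,b;d) ≥ (μ_q - λ_q choose p - λ_q)`. -/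
theorem result (k : Type*) [Field k] (n b d q p : ℕ) (hq1 : 1 ≤ q) (hq : q ≤ n)
    (hd : b + q + 1 ≤ d) (h1 : lam b d q ≤ p) (h2 : (p : ℤ) ≤ mu n b d q) :
    Nontrivial (El.KK k n b d p q) ∧
    (((mu n b d q - lam b d q).toNat.choose (p - lam b d q).toNat : ℕ) : Cardinal)
      ≤ Module.rank k (El.KK k n b d p q) :=
  ⟨El.main' k n b d q p hq1 hq hd h1 h2, (El.main k n b d q p hq1 hq hd h1 h2).1⟩

end Pool.Agent.Results.MP_ab447a_ag.VeroneseNonvanishing
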